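import Pool.Agent.Lib_MP_cd200f_s.Sub1

/-!
# Reguli over the fixed field
-/

namespace Pool.Agent.RegPack

open Module

section generic

variable {K X : Type} [Field K] [AddCommGroup X] [Module K X]

/-- disjoint pairs: comparison of coordinates -/
theorem cmp {a b : Submodule K X} (hab : a ⊓ b = ⊥) {x x' y y' : X} (hx : x ∈ a) (hx' : x' ∈ a)
    (hy : y ∈ b) (hy' : y' ∈ b) (h : x + y = x' + y') : x = x' ∧ y = y' := by
  have h1 : x - x' = y' - y := by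
    rw [sub_eq_sub_iff_add_eq_add, h, add_comm]
  have h2 : x - x' ∈ a ⊓ b := ⟨a.sub_mem hx hx', by rw [h1]; exact b.sub_mem hy' hy⟩
  rw [hab, Submodule.mem_bot] at h2
  have h3 : x = x' := sub_eq_zero.1 h2
  rw [h2] at h1
  exact ⟨h3, (sub_eq_zero.1 h1.symm).symm⟩

theorem pair_zero {x y : X} (h : LinearIndependent K ![x, y]) {α β : K}
    (h0 : α • x + β • y = 0) : α = 0 ∧ β = 0 := by
  rw [LinearIndependent.pair_iff] at h
  exact h α β h0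

theorem meet_iff {a b : Submodule K X} : Meet a b ↔ ∃ x, x ∈ a ∧ x ∈ b ∧ x ≠ 0 := by
  unfold Meet
  rw [Submodule.ne_bot_iff]
  constructor
  · rintro ⟨x, hx, h0⟩
    exact ⟨x, hx.1, hx.2, h0⟩
  · rintro ⟨x, h1, h2, h0⟩
    exact ⟨x, ⟨h1, h2⟩, h0⟩

/-- the lines of a regulus in coordinates -/
theorem regulus_coord {a b c U : Submodule K X} (hab : a ⊓ b = ⊥) {x₁ x₂ y₁ y₂ : X}
    (hx₁ : x₁ ∈ a) (hx₂ : x₂ ∈ a) (hy₁ : y₁ ∈ b) (hy₂ : y₂ ∈ b)
    (hz₁ : x₁ + y₁ ∈ c) (hz₂ : x₂ + y₂ ∈ c)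
    (hx : LinearIndependent K ![x₁, x₂]) (hy : LinearIndependent K ![y₁, y₂])
    (hU : U ∈ regulus a b c) :
    ∃ l m : K, (l ≠ 0 ∨ m ≠ 0) ∧ l • x₁ + m • y₁ ∈ U ∧ l • x₂ + m • y₂ ∈ U := by
  obtain ⟨hUl, hUm⟩ := hU
  have hx₁0 : x₁ ≠ 0 := hx.ne_zero 0
  have hx₂0 : x₂ ≠ 0 := hx.ne_zero 1
  have hy₁0 : y₁ ≠ 0 := hy.ne_zero 0
  have hy₂0 : y₂ ≠ 0 := hy.ne_zero 1
  have tr : ∀ x y, x ∈ a → y ∈ b → x + y ∈ c → x ≠ 0 → y ≠ 0 →
      ∃ l m : K, (l ≠ 0 ∨ m ≠ 0) ∧ l • x + m • y ∈ U := by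
    intro x y hxa hyb hzc hx0 hy0
    have hT : IsLine (Submodule.span K {x, y}) := by
      refine isLine_span (indep_of hx0 fun k hk => ?_)
      have h1 : y ∈ a ⊓ b := ⟨by rw [hk]; exact a.smul_mem k hxa, hyb⟩
      rw [hab, Submodule.mem_bot] at h1
      exact hy0 h1
    have hxT : x ∈ Submodule.span K {x, y} := Submodule.subset_span (by simp)
    have hyT : y ∈ Submodule.span K {x, y} := Submodule.subset_span (by simp)
    obtain ⟨u, hu, huU, hu0⟩ := meet_iff.1 (hUm _ hT (meet_iff.2 ⟨x, hxT, hxa, hx0⟩)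
      (meet_iff.2 ⟨y, hyT, hyb, hy0⟩)
      (meet_iff.2 ⟨x + y, Submodule.add_mem _ hxT hyT, hzc, fun h => by
        have h2 := (cmp hab hxa a.zero_mem hyb b.zero_mem (by rw [h, add_zero])).1
        exact hx0 h2⟩))
    obtain ⟨l, m, rfl⟩ := Submodule.mem_span_pair.1 hu
    refine ⟨l, m, ?_, huU⟩
    by_contra h
    push Not at h
    rw [h.1, h.2, zero_smul, zero_smul, add_zero] at hu0
    exact hu0 rfl
  obtain ⟨l₁, m₁, h1, hu1⟩ := tr x₁ y₁ hx₁ hy₁ hz₁ hx₁0 hy₁0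
  obtain ⟨l₂, m₂, h2, hu2⟩ := tr x₂ y₂ hx₂ hy₂ hz₂ hx₂0 hy₂0
  have hx3 : x₁ + x₂ ≠ 0 := fun h => by
    have := (pair_zero hx (α := 1) (β := 1) (by rw [one_smul, one_smul, h])).1
    exact one_ne_zero this
  have hy3 : y₁ + y₂ ≠ 0 := fun h => by
    have := (pair_zero hy (α := 1) (β := 1) (by rw [one_smul, one_smul, h])).1
    exact one_ne_zero this
  obtain ⟨l, m, h3, hu3⟩ := tr (x₁ + x₂) (y₁ + y₂) (a.add_mem hx₁ hx₂) (b.add_mem hy₁ hy₂) (by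
    have h := c.add_mem hz₁ hz₂
    have h' : x₁ + x₂ + (y₁ + y₂) = x₁ + y₁ + (x₂ + y₂) := by abel
    rw [h']
    exact h) hx3 hy3
  have hind : LinearIndependent K ![l₁ • x₁ + m₁ • y₁, l₂ • x₂ + m₂ • y₂] := by
    rw [LinearIndependent.pair_iff]
    intro α β h
    have h' : (α * l₁) • x₁ + (β * l₂) • x₂ + ((α * m₁) • y₁ + (β * m₂) • y₂) = 0 + 0 := by
      rw [add_zero, ← h]
      simp only [smul_add, smul_smul]
      abel
    obtain ⟨e1, e2⟩ := cmp hab (a.add_mem (a.smul_mem _ hx₁) (a.smul_mem _ hx₂)) a.zero_mem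
      (b.add_mem (b.smul_mem _ hy₁) (b.smul_mem _ hy₂)) b.zero_mem h'
    obtain ⟨f1, f2⟩ := pair_zero hx e1
    obtain ⟨g1, g2⟩ := pair_zero hy e2
    constructor
    · rcases h1 with h1 | h1
      · exact (mul_eq_zero.1 f1).resolve_right h1
      · exact (mul_eq_zero.1 g1).resolve_right h1
    · rcases h2 with h2 | h2
      · exact (mul_eq_zero.1 f2).resolve_right h2
      · exact (mul_eq_zero.1 g2).resolve_right h2
  have hUs := hUl.eq_span hu1 hu2 hind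
  have hu3' := hu3
  rw [hUs] at hu3'
  obtain ⟨α, β, hab3⟩ := Submodule.mem_span_pair.1 hu3'
  have h' : (α * l₁) • x₁ + (β * l₂) • x₂ + ((α * m₁) • y₁ + (β * m₂) • y₂) =
      (l • x₁ + l • x₂) + (m • y₁ + m • y₂) := by
    rw [← smul_add, ← smul_add, ← hab3]
    simp only [smul_add, smul_smul]
    abel
  obtain ⟨e1, e2⟩ := cmp hab (a.add_mem (a.smul_mem _ hx₁) (a.smul_mem _ hx₂))
    (a.add_mem (a.smul_mem _ hx₁) (a.smul_mem _ hx₂))
    (b.add_mem (b.smul_mem _ hy₁) (b.smul_mem _ hy₂))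
    (b.add_mem (b.smul_mem _ hy₁) (b.smul_mem _ hy₂)) h'
  have e1' : (α * l₁ - l) • x₁ + (β * l₂ - l) • x₂ = 0 := by
    rw [sub_smul, sub_smul, sub_add_sub_comm, e1, sub_self]
  have e2' : (α * m₁ - m) • y₁ + (β * m₂ - m) • y₂ = 0 := by
    rw [sub_smul, sub_smul, sub_add_sub_comm, e2, sub_self]
  obtain ⟨f1, f2⟩ := pair_zero hx e1'
  obtain ⟨g1, g2⟩ := pair_zero hy e2'
  refine ⟨l, m, h3, ?_, ?_⟩
  · rw [← sub_eq_zero.1 f1, ← sub_eq_zero.1 g1, mul_smul, mul_smul, ← smul_add]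
    exact U.smul_mem α hu1
  · rw [← sub_eq_zero.1 f2, ← sub_eq_zero.1 g2, mul_smul, mul_smul, ← smul_add]
    exact U.smul_mem β hu2

/-- a line in coordinates lies in the regulus -/
theorem mem_regulus_of_coord {a b c U : Submodule K X} (hab : a ⊓ b = ⊥) {x₁ x₂ y₁ y₂ : X}
    (hx₁ : x₁ ∈ a) (hx₂ : x₂ ∈ a) (hy₁ : y₁ ∈ b) (hy₂ : y₂ ∈ b)
    (hc : c = Submodule.span K {x₁ + y₁, x₂ + y₂})
    (hx : LinearIndependent K ![x₁, x₂]) (hy : LinearIndependent K ![y₁, y₂]) (hUl : IsLine U)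
    {l m : K} (hlm : l ≠ 0 ∨ m ≠ 0) (h1 : l • x₁ + m • y₁ ∈ U) (h2 : l • x₂ + m • y₂ ∈ U) :
    U ∈ regulus a b c := by
  refine ⟨hUl, fun T hT hTa hTb hTc => ?_⟩
  obtain ⟨p, hpT, hpa, hp0⟩ := meet_iff.1 hTa
  obtain ⟨r, hrT, hrb, hr0⟩ := meet_iff.1 hTb
  obtain ⟨s, hsT, hsc, hs0⟩ := meet_iff.1 hTc
  rw [hc] at hsc
  obtain ⟨s₁, s₂, hs⟩ := Submodule.mem_span_pair.1 hsc
  have hind : LinearIndependent K ![p, r] := indep_of hp0 fun k hk => by
    have h : r ∈ a ⊓ b := ⟨by rw [hk]; exact a.smul_mem k hpa, hrb⟩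
    rw [hab, Submodule.mem_bot] at h
    exact hr0 h
  have hTs := hT.eq_span hpT hrT hind
  have hsT' := hsT
  rw [hTs] at hsT'
  obtain ⟨ξ, η, hξ⟩ := Submodule.mem_span_pair.1 hsT'
  have h' : s₁ • x₁ + s₂ • x₂ + (s₁ • y₁ + s₂ • y₂) = ξ • p + η • r := by
    rw [hξ, ← hs, smul_add, smul_add]
    abel
  have hXa : s₁ • x₁ + s₂ • x₂ ∈ a := a.add_mem (a.smul_mem _ hx₁) (a.smul_mem _ hx₂)
  have hYb : s₁ • y₁ + s₂ • y₂ ∈ b := b.add_mem (b.smul_mem _ hy₁) (b.smul_mem _ hy₂)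
  obtain ⟨e1, e2⟩ := cmp hab hXa (a.smul_mem _ hpa) hYb (b.smul_mem _ hrb) h'
  have hss : s₁ ≠ 0 ∨ s₂ ≠ 0 := by
    by_contra h
    push Not at h
    rw [h.1, h.2, zero_smul, zero_smul, add_zero] at hs
    exact hs0 hs.symm
  refine meet_iff.2 ⟨l • (s₁ • x₁ + s₂ • x₂) + m • (s₁ • y₁ + s₂ • y₂), ?_, ?_, ?_⟩
  · rw [e1, e2]
    exact T.add_mem (T.smul_mem _ (T.smul_mem _ hpT)) (T.smul_mem _ (T.smul_mem _ hrT))
  · have h3 : l • (s₁ • x₁ + s₂ • x₂) + m • (s₁ • y₁ + s₂ • y₂) =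
        s₁ • (l • x₁ + m • y₁) + s₂ • (l • x₂ + m • y₂) := by
      simp only [smul_add, smul_smul]
      rw [mul_comm s₁ l, mul_comm s₁ m, mul_comm s₂ l, mul_comm s₂ m]
      abel
    rw [h3]
    exact U.add_mem (U.smul_mem _ h1) (U.smul_mem _ h2)
  · intro h
    obtain ⟨g1, g2⟩ := cmp hab (a.smul_mem l hXa) a.zero_mem (b.smul_mem m hYb) b.zero_mem
      (by rw [h, add_zero])
    rcases hlm with hl | hm
    · have := pair_zero hx ((smul_eq_zero.1 g1).resolve_left hl)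
      rcases hss with h0 | h0
      · exact h0 this.1
      · exact h0 this.2
    · have := pair_zero hy ((smul_eq_zero.1 g2).resolve_left hm)
      rcases hss with h0 | h0
      · exact h0 this.1
      · exact h0 this.2

/-- coordinates for three disjoint lines of a four-dimensional space -/
theorem exists_coord (hX : finrank K X = 4) {a b c : Submodule K X} (ha : IsLine a)
    (hb : IsLine b) (hc : IsLine c) (hab : a ⊓ b = ⊥) (hac : a ⊓ c = ⊥) (hbc : b ⊓ c = ⊥) :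
    ∃ x₁ x₂ y₁ y₂ : X, x₁ ∈ a ∧ x₂ ∈ a ∧ y₁ ∈ b ∧ y₂ ∈ b ∧
      LinearIndependent K ![x₁, x₂] ∧ LinearIndependent K ![y₁, y₂] ∧
      x₁ + y₁ ∈ c ∧ x₂ + y₂ ∈ c ∧ c = Submodule.span K {x₁ + y₁, x₂ + y₂} := by
  have hfd : FiniteDimensional K X := FiniteDimensional.of_finrank_pos (by rw [hX]; norm_num)
  have hsup : b ⊔ c = ⊤ := by
    apply Submodule.eq_top_of_finrank_eq
    have h1 := Submodule.finrank_sup_add_finrank_inf_eq b c
    rw [hbc, finrank_bot] at h1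
    unfold IsLine at hb hc
    omega
  have hdec : ∀ x ∈ a, ∃ y ∈ b, x + y ∈ c := by
    intro x _
    have h1 : x ∈ b ⊔ c := by
      rw [hsup]
      trivial
    obtain ⟨y, hy, z, hz, hyz⟩ := Submodule.mem_sup.1 h1
    refine ⟨-y, b.neg_mem hy, ?_⟩
    have h2 : x + -y = z := by
      rw [← hyz]
      abel
    rw [h2]
    exact hz
  have ha' : finrank K a = 2 := ha
  let e := Module.finBasisOfFinrankEq K a ha'
  have hxi : LinearIndependent K ![((e 0 : a) : X), ((e 1 : a) : X)] := by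
    rw [LinearIndependent.pair_iff]
    intro α β h
    have h1 : α • e 0 + β • e 1 = 0 := Subtype.ext h
    have h2 := Fintype.linearIndependent_iff.1 e.linearIndependent ![α, β] (by
      rw [Fin.sum_univ_two]
      exact h1)
    exact ⟨h2 0, h2 1⟩
  obtain ⟨y₁, hy₁, hz₁⟩ := hdec _ (e 0).2
  obtain ⟨y₂, hy₂, hz₂⟩ := hdec _ (e 1).2
  have hyi : LinearIndependent K ![y₁, y₂] := by
    rw [LinearIndependent.pair_iff]
    intro α β h
    have h1 : α • ((e 0 : a) : X) + β • ((e 1 : a) : X) ∈ a ⊓ c := by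
      refine ⟨a.add_mem (a.smul_mem _ (e 0).2) (a.smul_mem _ (e 1).2), ?_⟩
      have h2 : α • ((e 0 : a) : X) + β • ((e 1 : a) : X) =
          α • (((e 0 : a) : X) + y₁) + β • (((e 1 : a) : X) + y₂) := by
        rw [smul_add, smul_add, add_add_add_comm, h, add_zero]
      rw [h2]
      exact c.add_mem (c.smul_mem _ hz₁) (c.smul_mem _ hz₂)
    rw [hac, Submodule.mem_bot] at h1
    exact pair_zero hxi h1
  have hzi : LinearIndependent K ![((e 0 : a) : X) + y₁, ((e 1 : a) : X) + y₂] := by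
    rw [LinearIndependent.pair_iff]
    intro α β h
    have h' : α • ((e 0 : a) : X) + β • ((e 1 : a) : X) + (α • y₁ + β • y₂) = 0 + 0 := by
      rw [add_zero, ← h, smul_add, smul_add]
      abel
    obtain ⟨g1, -⟩ := cmp hab (a.add_mem (a.smul_mem _ (e 0).2) (a.smul_mem _ (e 1).2))
      a.zero_mem (b.add_mem (b.smul_mem _ hy₁) (b.smul_mem _ hy₂)) b.zero_mem h'
    exact pair_zero hxi g1
  exact ⟨_, _, y₁, y₂, (e 0).2, (e 1).2, hy₁, hy₂, hxi, hyi, hz₁, hz₂, hc.eq_span hz₁ hz₂ hzi⟩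

end generic

end Pool.Agent.RegPack
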