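import Pool.Agent.Lib_MP_cd200f_co.Defs

/-!
# Collineations and their action on lines and spreads
-/

namespace Pool.Agent.RegPack

/-- The bijection `g` of the vector space is semilinear with field automorphism `σ`. -/
def IsSemi {F V : Type} [Field F] [AddCommGroup V] [Module F V] (σ : F ≃+* F)
    (g : Equiv.Perm V) : Prop :=
  (∀ v w : V, g (v + w) = g v + g w) ∧ ∀ (c : F) (v : V), g (c • v) = σ c • g v

/-- The image of a set of subspaces under a bijection `g` of the vector space. -/
def sim {F V : Type} [Field F] [AddCommGroup V] [Module F V] (g : Equiv.Perm V)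
    (S : Set (Submodule F V)) : Set (Submodule F V) :=
  {U | ∃ T ∈ S, (U : Set V) = g '' (T : Set V)}

end Pool.Agent.RegPack
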