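import Pool.Agent.Lib_MP_cd200f_s.Defs
import Pool.Agent.Lib_MP_cd200f_co.Trans

/-!
# Three-groups of collineations fix a spread
-/

namespace Pool.Agent.RegPack

open Module

variable {F V : Type} [Field F] [AddCommGroup V] [Module F V]

/-- the image of a subspace under a semilinear bijection -/
def smap (g : Equiv.Perm V) (hg : ∃ σ : F ≃+* F, IsSemi σ g) (T : Submodule F V) : Submodule F V where
  carrier := g '' (T : Set V)
  add_mem' := by
    rintro _ _ ⟨a, ha, rfl⟩ ⟨b, hb, rfl⟩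
    obtain ⟨σ, hσ⟩ := hg
    exact ⟨a + b, T.add_mem ha hb, hσ.1 a b⟩
  zero_mem' := by
    obtain ⟨σ, hσ⟩ := hg
    refine ⟨0, T.zero_mem, ?_⟩
    have h := hσ.2 0 0
    rw [smul_zero, map_zero σ, zero_smul] at h
    exact h
  smul_mem' := by
    rintro c _ ⟨a, ha, rfl⟩
    obtain ⟨σ, hσ⟩ := hg
    exact ⟨σ.symm c • a, T.smul_mem _ ha, by rw [hσ.2, σ.apply_symm_apply]⟩

theorem coe_smap (g : Equiv.Perm V) (hg : ∃ σ : F ≃+* F, IsSemi σ g) (T : Submodule F V) :
    (smap g hg T : Set V) = g '' (T : Set V) := rfl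

theorem mem_sim {g : Equiv.Perm V} (hg : ∃ σ : F ≃+* F, IsSemi σ g) {S : Set (Submodule F V)}
    {U : Submodule F V} : U ∈ sim g S ↔ ∃ T ∈ S, U = smap g hg T := by
  constructor
  · rintro ⟨T, hT, h⟩
    exact ⟨T, hT, SetLike.coe_injective h⟩
  · rintro ⟨T, hT, rfl⟩
    exact ⟨T, hT, rfl⟩

theorem smap_mem_sim {g : Equiv.Perm V} (hg : ∃ σ : F ≃+* F, IsSemi σ g) {S : Set (Submodule F V)}
    {T : Submodule F V} (hT : T ∈ S) : smap g hg T ∈ sim g S := ⟨T, hT, rfl⟩

theorem sim_one (S : Set (Submodule F V)) : sim (1 : Equiv.Perm V) S = S := by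
  ext U
  constructor
  · rintro ⟨T, hT, h⟩
    have h1 : (U : Set V) = T := by
      rw [h]
      ext x
      constructor
      · rintro ⟨y, hy, rfl⟩
        exact hy
      · intro hx
        exact ⟨x, hx, rfl⟩
    rw [SetLike.coe_injective h1]
    exact hT
  · intro hU
    refine ⟨U, hU, ?_⟩
    ext x
    constructor
    · intro hx
      exact ⟨x, hx, rfl⟩
    · rintro ⟨y, hy, rfl⟩
      exact hy

theorem sim_mul (g h : Equiv.Perm V) (hh : ∃ σ : F ≃+* F, IsSemi σ h) (S : Set (Submodule F V)) :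
    sim (g * h) S = sim g (sim h S) := by
  ext U
  constructor
  · rintro ⟨T, hT, hU⟩
    refine ⟨smap h hh T, smap_mem_sim hh hT, ?_⟩
    rw [hU, coe_smap, Set.image_image]
    rfl
  · rintro ⟨T, ⟨W, hW, hT⟩, hU⟩
    refine ⟨W, hW, ?_⟩
    rw [hU, hT, Set.image_image]
    rfl

theorem finrank_smap [Finite F] [FiniteDimensional F V] (g : Equiv.Perm V)
    (hg : ∃ σ : F ≃+* F, IsSemi σ g) (T : Submodule F V) :
    finrank F (smap g hg T) = finrank F T := by
  have h1 : Nat.card (smap g hg T) = Nat.card T := by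
    have : (smap g hg T : Set V).ncard = (T : Set V).ncard := by
      rw [coe_smap]
      exact Set.ncard_image_of_injective _ g.injective
    exact this
  rw [Module.natCard_eq_pow_finrank (K := F) (V := smap g hg T),
    Module.natCard_eq_pow_finrank (K := F) (V := T)] at h1
  exact Nat.pow_right_injective (Finite.one_lt_card (α := F)) h1

/-- a group of collineations of order a power of `3` fixes a point if `q` is `1` modulo `3` -/
theorem exists_fixed_point [Finite F] (hV : finrank F V = 4) (hq : Nat.card F % 3 = 1)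
    (Q : Subgroup (Equiv.Perm V)) (hQ : IsPGroup 3 Q) (hs : ∀ g ∈ Q, ∃ σ : F ≃+* F, IsSemi σ g) :
    ∃ e : V, e ≠ 0 ∧ ∀ g ∈ Q, ∃ α : F, g e = α • e := by
  have hfd : FiniteDimensional F V := FiniteDimensional.of_finrank_pos (by rw [hV]; norm_num)
  let X := {T : Submodule F V // finrank F T = 1}
  let act : MulAction Q X :=
    { smul := fun g T => ⟨smap g.1 (hs g.1 g.2) T.1, by rw [finrank_smap]; exact T.2⟩
      one_smul := fun T => by
        apply Subtype.ext
        apply SetLike.coe_injective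
        show (1 : Equiv.Perm V) '' ((T.1 : Submodule F V) : Set V) = T.1
        ext x
        constructor
        · rintro ⟨y, hy, rfl⟩
          exact hy
        · intro hx
          exact ⟨x, hx, rfl⟩
      mul_smul := fun g h T => by
        apply Subtype.ext
        apply SetLike.coe_injective
        show (g.1 * h.1 : Equiv.Perm V) '' ((T.1 : Submodule F V) : Set V) = g.1 '' (h.1 '' T.1)
        rw [Set.image_image]
        rfl }
  have hX : Nat.card X = ∑ i ∈ Finset.range 4, Nat.card F ^ i := by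
    rw [← Projectivization.card_of_finrank F V hV]
    exact (Nat.card_congr (Projectivization.equivSubmodule F V)).symm
  have h3 : ¬ 3 ∣ Nat.card X := by
    rw [hX]
    simp only [Finset.sum_range_succ, Finset.sum_range_zero]
    intro h
    have h1 : Nat.card F ≡ 1 [MOD 3] := by
      unfold Nat.ModEq
      omega
    have h2 : 0 + Nat.card F ^ 0 + Nat.card F ^ 1 + Nat.card F ^ 2 + Nat.card F ^ 3
        ≡ 0 + 1 ^ 0 + 1 ^ 1 + 1 ^ 2 + 1 ^ 3 [MOD 3] :=
      (((Nat.ModEq.refl 0).add (h1.pow 0)).add (h1.pow 1) |>.add (h1.pow 2)).add (h1.pow 3)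
    have h4 : 0 + Nat.card F ^ 0 + Nat.card F ^ 1 + Nat.card F ^ 2 + Nat.card F ^ 3 ≡ 0 [MOD 3] :=
      (Nat.modEq_zero_iff_dvd).2 h
    have h5 := h2.symm.trans h4
    revert h5
    decide
  have hfact : Fact (Nat.Prime 3) := ⟨Nat.prime_three⟩
  obtain ⟨T, hT⟩ := hQ.nonempty_fixed_point_of_prime_not_dvd_card X h3
  obtain ⟨e, he0, he⟩ := (finrank_eq_one_iff').1 T.2
  refine ⟨e, fun h => he0 (Subtype.ext h), ?_⟩
  intro g hg
  have h1 : (⟨g, hg⟩ : Q) • T = T := hT ⟨g, hg⟩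
  have h2 : (g '' ((T.1 : Submodule F V) : Set V)) = T.1 :=
    congrArg (fun z : X => ((z.1 : Submodule F V) : Set V)) h1
  have h3 : g e ∈ T.1 := by
    have : g (e : V) ∈ (g '' ((T.1 : Submodule F V) : Set V)) := ⟨e, e.2, rfl⟩
    rw [h2] at this
    exact this
  obtain ⟨α, hα⟩ := he ⟨g e, h3⟩
  exact ⟨α, (congrArg Subtype.val hα).symm⟩


theorem IsSemi.zero {σ : F ≃+* F} {g : Equiv.Perm V} (h : IsSemi σ g) : g 0 = 0 := by
  have h1 := h.2 0 0
  rw [smul_zero, map_zero σ, zero_smul] at h1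
  exact h1

theorem IsSemi.one : IsSemi (RingEquiv.refl F) (1 : Equiv.Perm V) :=
  ⟨fun _ _ => rfl, fun _ _ => rfl⟩

theorem IsSemi.mul {σ τ : F ≃+* F} {g h : Equiv.Perm V} (hg : IsSemi σ g) (hh : IsSemi τ h) :
    IsSemi (τ.trans σ) (g * h) := by
  refine ⟨fun v w => ?_, fun c v => ?_⟩
  · show g (h (v + w)) = g (h v) + g (h w)
    rw [hh.1, hg.1]
  · show g (h (c • v)) = σ (τ c) • g (h v)
    rw [hh.2, hg.2]

omit [AddCommGroup V] in
theorem app_inv (g : Equiv.Perm V) (v : V) : g (g⁻¹ v) = v := g.apply_symm_apply v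

theorem IsSemi.inv {σ : F ≃+* F} {g : Equiv.Perm V} (hg : IsSemi σ g) :
    IsSemi σ.symm g⁻¹ := by
  refine ⟨fun v w => ?_, fun c v => ?_⟩
  · rw [Equiv.Perm.inv_eq_iff_eq, hg.1, app_inv, app_inv]
  · rw [Equiv.Perm.inv_eq_iff_eq, hg.2, app_inv, σ.apply_symm_apply]

theorem IsSemi.sum {σ : F ≃+* F} {g : Equiv.Perm V} (hg : IsSemi σ g) {ι : Type*}
    (s : Finset ι) (f : ι → V) : g (∑ i ∈ s, f i) = ∑ i ∈ s, g (f i) :=
  map_sum (⟨⟨g, hg.zero⟩, hg.1⟩ : V →+ V) f s

theorem IsSemi.unique [Nontrivial V] {σ τ : F ≃+* F} {g : Equiv.Perm V} (h : IsSemi σ g)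
    (h' : IsSemi τ g) : σ = τ := by
  obtain ⟨v, hv⟩ := exists_ne (0 : V)
  ext c
  have h1 : g v ≠ 0 := fun h2 => hv (g.injective (h2.trans h.zero.symm))
  have h2 : (σ c - τ c) • g v = 0 := by
    rw [sub_smul, ← h.2, ← h'.2, sub_self]
  exact sub_eq_zero.1 ((smul_eq_zero.1 h2).resolve_right h1)

/-- scalar multiplication as a permutation -/
def scal (α : F) (h : α ≠ 0) : Equiv.Perm V where
  toFun v := α • v
  invFun v := α⁻¹ • v
  left_inv v := by
    show α⁻¹ • α • v = v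
    rw [smul_smul, inv_mul_cancel₀ h, one_smul]
  right_inv v := by
    show α • α⁻¹ • v = v
    rw [smul_smul, mul_inv_cancel₀ h, one_smul]

/-- the normalised group: scalar multiples of the elements of `Q` which fix `e` -/
def normG (Q : Subgroup (Equiv.Perm V)) (hs : ∀ g ∈ Q, ∃ σ : F ≃+* F, IsSemi σ g) (e : V) :
    Subgroup (Equiv.Perm V) where
  carrier := {k | k e = e ∧ ∃ g ∈ Q, ∃ α : F, α ≠ 0 ∧ ∀ v, k v = α • g v}
  mul_mem' := by
    rintro k l ⟨hk, g, hg, α, hα, h1⟩ ⟨hl, h, hh, β, hβ, h2⟩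
    obtain ⟨σ, hσ⟩ := hs g hg
    refine ⟨?_, g * h, Q.mul_mem hg hh, α * σ β, ?_, ?_⟩
    · show k (l e) = e
      rw [hl, hk]
    · exact mul_ne_zero hα fun h0 => hβ ((map_eq_zero σ).1 h0)
    · intro v
      show k (l v) = (α * σ β) • g (h v)
      rw [h2, h1, hσ.2, smul_smul]
  one_mem' := ⟨rfl, 1, Q.one_mem, 1, one_ne_zero, fun v => by rw [one_smul]⟩
  inv_mem' := by
    rintro k ⟨hk, g, hg, α, hα, h1⟩
    obtain ⟨σ, hσ⟩ := hs g hg
    refine ⟨?_, g⁻¹, Q.inv_mem hg, σ.symm α⁻¹, ?_, ?_⟩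
    · rw [Equiv.Perm.inv_eq_iff_eq]
      exact hk.symm
    · exact fun h0 => inv_ne_zero hα ((map_eq_zero σ.symm).1 h0)
    · intro v
      rw [Equiv.Perm.inv_eq_iff_eq, h1, hσ.2, σ.apply_symm_apply, app_inv,
        smul_smul, mul_inv_cancel₀ hα, one_smul]

theorem normG_semi {Q : Subgroup (Equiv.Perm V)} {hs : ∀ g ∈ Q, ∃ σ : F ≃+* F, IsSemi σ g} {e : V}
    {k : Equiv.Perm V} (hk : k ∈ normG Q hs e) : ∃ σ : F ≃+* F, IsSemi σ k := by
  obtain ⟨-, g, hg, α, hα, h1⟩ := hk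
  obtain ⟨σ, hσ⟩ := hs g hg
  refine ⟨σ, fun v w => ?_, fun c v => ?_⟩
  · rw [h1, h1, h1, hσ.1, smul_add]
  · rw [h1, h1, hσ.2, smul_comm]

end Pool.Agent.RegPack
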