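import Pool.Agent.Lib_MP_cd200f_s.Three
import Pool.Agent.Lib_MP_cd200f_c3.TransMain

/-!
# Transitive collineation groups of regular packings
-/

namespace Pool.Agent.RegPack

open Module

variable {F V : Type} [Field F] [AddCommGroup V] [Module F V]
variable {P : Set (Set (Submodule F V))}

/-- the action of a group of collineations on the spreads -/
@[reducible] def semiAct (H : Subgroup (Equiv.Perm V)) (hs : ∀ g ∈ H, ∃ σ : F ≃+* F, IsSemi σ g)
    (hH : ∀ g ∈ H, ∀ S ∈ P, sim g S ∈ P) : MulAction H P where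
  smul g S := ⟨sim g.1 S.1, hH g.1 g.2 S.1 S.2⟩
  one_smul S := Subtype.ext (sim_one S.1)
  mul_smul g h S := Subtype.ext (sim_mul g.1 h.1 (hs h.1 h.2) S.1)

/-- a group of collineations of a regular packing has an orbit of spreads of length prime to `3` if
`q` is `1` modulo `3` -/
theorem semi_orbit [Finite F] (hV : finrank F V = 4) (hP : IsPacking P)
    (hR : ∀ S ∈ P, IsRegular S) (H : Subgroup (Equiv.Perm V))
    (hs : ∀ g ∈ H, ∃ σ : F ≃+* F, IsSemi σ g) (hH : ∀ g ∈ H, ∀ S ∈ P, sim g S ∈ P)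
    (hq : Nat.card F % 3 = 1) : ∃ S ∈ P, ¬ 3 ∣ Set.ncard {T | ∃ g ∈ H, sim g S = T} := by
  have hfin := finite_space (F := F) (V := V) hV
  have hfinS : Finite (Submodule F V) := Finite.of_injective _ SetLike.coe_injective
  have hfinP : Finite P := inferInstance
  let act : MulAction H P := semiAct H hs hH
  have hfact : Fact (Nat.Prime 3) := ⟨Nat.prime_three⟩
  obtain ⟨Q⟩ : Nonempty (Sylow 3 H) := Sylow.nonempty
  let R : Subgroup (Equiv.Perm V) := (Q : Subgroup H).map H.subtype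
  have hRH : R ≤ H := by
    rintro _ ⟨x, -, rfl⟩
    exact x.2
  obtain ⟨S, hS, hfix⟩ := three_fix hq hV hP hR R (Q.isPGroup'.map H.subtype)
    (fun g hg => hs g (hRH hg)) (fun g hg => hH g (hRH hg))
  refine ⟨S, hS, fun h3 => ?_⟩
  have hQ : ∀ g ∈ (Q : Subgroup H), g ∈ MulAction.stabilizer H (⟨S, hS⟩ : P) := by
    intro g hg
    rw [MulAction.mem_stabilizer_iff]
    exact Subtype.ext (hfix g.1 ⟨g, hg, rfl⟩)
  have h4 : (MulAction.stabilizer H (⟨S, hS⟩ : P)).index ∣ (Q : Subgroup H).index :=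
    Subgroup.index_dvd_of_le hQ
  have h5 : {T | ∃ g ∈ H, sim g S = T} =
      Subtype.val '' (MulAction.orbit H (⟨S, hS⟩ : P)) := by
    ext T
    constructor
    · rintro ⟨g, hg, rfl⟩
      exact ⟨⟨sim g S, hH g hg S hS⟩, ⟨⟨g, hg⟩, rfl⟩, rfl⟩
    · rintro ⟨_, ⟨g, rfl⟩, rfl⟩
      exact ⟨g, g.2, rfl⟩
  rw [h5, Set.ncard_image_of_injective _ Subtype.val_injective, ← MulAction.index_stabilizer] at h3
  exact Q.not_dvd_index (h3.trans h4)

theorem semi_not_one [Finite F] (hV : finrank F V = 4) (hP : IsPacking P)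
    (hR : ∀ S ∈ P, IsRegular S) (H : Subgroup (Equiv.Perm V))
    (hs : ∀ g ∈ H, ∃ σ : F ≃+* F, IsSemi σ g) (hH : ∀ g ∈ H, ∀ S ∈ P, sim g S ∈ P)
    (htr : ∀ S ∈ P, ∀ T ∈ P, ∃ g ∈ H, sim g S = T) : Nat.card F % 3 ≠ 1 := by
  intro hq
  obtain ⟨S, hS, h⟩ := semi_orbit hV hP hR H hs hH hq
  apply h
  have h1 : {T | ∃ g ∈ H, sim g S = T} = P := by
    ext T
    constructor
    · rintro ⟨g, hg, rfl⟩
      exact hH g hg S hS
    · intro hT
      exact htr S hS T hT
  rw [h1, ← Nat.card_coe_set_eq, card_packing hV hP]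
  obtain ⟨k, hk⟩ : ∃ k, Nat.card F = 3 * k + 1 := ⟨Nat.card F / 3, by omega⟩
  rw [hk]
  exact ⟨3 * k ^ 2 + 3 * k + 1, by ring⟩

/-- the field automorphisms of the elements of `H` -/
theorem exists_chi [Nontrivial V] (H : Subgroup (Equiv.Perm V))
    (hs : ∀ g ∈ H, ∃ σ : F ≃+* F, IsSemi σ g) :
    ∃ χ : H →* (F ≃+* F), ∀ g : H, IsSemi (χ g) (g : Equiv.Perm V) := by
  choose σ hσ using fun g : H => hs g.1 g.2
  refine ⟨{ toFun := σ, map_one' := ?_, map_mul' := ?_ }, hσ⟩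
  · exact (hσ 1).unique IsSemi.one
  · intro g h
    exact (hσ (g * h)).unique ((hσ g).mul (hσ h))

/-- the order of the automorphism group of a finite field -/
theorem card_aut3 [Finite F] [CharP F 3] :
    ∃ h : ℕ, Nat.card F = 3 ^ h ∧ Nat.card (F ≃+* F) = h := by
  have : Fact (Nat.Prime 3) := ⟨Nat.prime_three⟩
  let alg : Algebra (ZMod 3) F := ZMod.algebra F 3
  have hfd : FiniteDimensional (ZMod 3) F := Module.Finite.of_finite
  refine ⟨finrank (ZMod 3) F, ?_, ?_⟩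
  · rw [Module.natCard_eq_pow_finrank (K := ZMod 3), Nat.card_zmod]
  · rw [← IsGalois.card_aut_eq_finrank (ZMod 3) F]
    refine Nat.card_congr
      { toFun := fun f => AlgEquiv.ofRingEquiv (f := f) (fun r => ?_)
        invFun := fun f => f.toRingEquiv
        left_inv := fun f => rfl
        right_inv := fun f => rfl }
    exact congrArg (fun z : ZMod 3 →+* F => z r)
      (Subsingleton.elim ((f : F →+* F).comp (algebraMap (ZMod 3) F)) (algebraMap (ZMod 3) F))

/-- if a transitive group of collineations has an image in the automorphism group of the field of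
order prime to the number of spreads, then its linear part is transitive -/
theorem semi_char3 [Finite F] [CharP F 3] (hV : finrank F V = 4) (hP : IsPacking P)
    (hR : ∀ S ∈ P, IsRegular S) (H : Subgroup (Equiv.Perm V)) (χ : H →* (F ≃+* F))
    (hχ : ∀ g : H, IsSemi (χ g) (g : Equiv.Perm V)) (hH : ∀ g ∈ H, ∀ S ∈ P, sim g S ∈ P)
    (htr : ∀ S ∈ P, ∀ T ∈ P, ∃ g ∈ H, sim g S = T)
    (hco : Nat.Coprime (Nat.card χ.range) (Nat.card F ^ 2 + Nat.card F + 1)) : False := by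
  have : Fintype F := Fintype.ofFinite F
  have hfin := finite_space (F := F) (V := V) hV
  have hfinS : Finite (Submodule F V) := Finite.of_injective _ SetLike.coe_injective
  have hfinP : Finite P := inferInstance
  have hs : ∀ g ∈ H, ∃ σ : F ≃+* F, IsSemi σ g := fun g hg => ⟨_, hχ ⟨g, hg⟩⟩
  let act : MulAction H P := semiAct H hs hH
  have hpre : MulAction.IsPretransitive H P := ⟨fun S T => by
    obtain ⟨g, hg, hgST⟩ := htr S.1 S.2 T.1 T.2
    exact ⟨⟨g, hg⟩, Subtype.ext hgST⟩⟩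
  let emb : (V ≃ₗ[F] V) →* Equiv.Perm V :=
    { toFun := fun G => G.toEquiv, map_one' := rfl, map_mul' := fun _ _ => rfl }
  refine C3.trans_char3 hV hP hR (H.comap emb) (fun G hG S hS => ?_) (fun S hS T hT => ?_)
  · rw [im_eq_sim G (emb G) fun _ => rfl]
    exact hH _ hG S hS
  · have h1 : (χ.ker ⊔ MulAction.stabilizer H (⟨S, hS⟩ : P)).index = 1 := by
      have h2 : (χ.ker ⊔ MulAction.stabilizer H (⟨S, hS⟩ : P)).index ∣ χ.ker.index :=
        Subgroup.index_dvd_of_le le_sup_left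
      have h3 : (χ.ker ⊔ MulAction.stabilizer H (⟨S, hS⟩ : P)).index ∣
          (MulAction.stabilizer H (⟨S, hS⟩ : P)).index :=
        Subgroup.index_dvd_of_le le_sup_right
      rw [Subgroup.index_ker] at h2
      rw [MulAction.index_stabilizer_of_transitive, card_packing hV hP] at h3
      exact Nat.eq_one_of_dvd_coprimes hco h2 h3
    rw [Subgroup.index_eq_one] at h1
    obtain ⟨g, hg, hgST⟩ := htr S hS T hT
    have h2 : (⟨g, hg⟩ : H) ∈ χ.ker ⊔ MulAction.stabilizer H (⟨S, hS⟩ : P) := by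
      rw [h1]
      trivial
    obtain ⟨k, hk, s, hst, hks⟩ := Subgroup.mem_sup_of_normal_left.1 h2
    have h3 : s • (⟨S, hS⟩ : P) = ⟨S, hS⟩ := MulAction.mem_stabilizer_iff.1 hst
    have h4 : k • (⟨S, hS⟩ : P) = ⟨T, hT⟩ := by
      have h5 : (⟨g, hg⟩ : H) • (⟨S, hS⟩ : P) = ⟨T, hT⟩ := Subtype.ext hgST
      rw [← hks, mul_smul, h3] at h5
      exact h5
    have h5 : sim (k : Equiv.Perm V) S = T := congrArg Subtype.val h4
    have h6 := hχ k
    rw [MonoidHom.mem_ker.1 hk] at h6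
    obtain ⟨G, hG⟩ := exists_lin (F := F) h6
    refine ⟨G, ?_, ?_⟩
    · show emb G ∈ H
      have : emb G = k := Equiv.ext fun v => hG v
      rw [this]
      exact k.2
    · rw [im_eq_sim G k hG]
      exact h5

/-- **Main theorem**, semilinear form. -/
theorem semi_trans [Finite F] (hV : finrank F V = 4) (hP : IsPacking P)
    (hR : ∀ S ∈ P, IsRegular S) (H : Subgroup (Equiv.Perm V))
    (hs : ∀ g ∈ H, ∃ σ : F ≃+* F, IsSemi σ g) (hH : ∀ g ∈ H, ∀ S ∈ P, sim g S ∈ P)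
    (htr : ∀ S ∈ P, ∀ T ∈ P, ∃ g ∈ H, sim g S = T) :
    Nat.card F % 3 = 2 ∨ ∃ h r : ℕ, Nat.card F = 3 ^ h ∧ r.Prime ∧ r ∣ h ∧
      r ∣ Nat.card F ^ 2 + Nat.card F + 1 ∧
      ∃ g ∈ H, ∃ σ : F ≃+* F, orderOf σ = r ∧ IsSemi σ g := by
  have hnt : Nontrivial V := Module.nontrivial_of_finrank_pos (R := F) (by rw [hV]; norm_num)
  have h1 := semi_not_one hV hP hR H hs hH htr
  by_cases h2 : Nat.card F % 3 = 2
  · exact Or.inl h2
  right
  have h0 : Nat.card F % 3 = 0 := by omega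
  have hch : CharP F 3 := charP_of_dvd (F := F) Nat.prime_three (Nat.dvd_of_mod_eq_zero h0)
  obtain ⟨χ, hχ⟩ := exists_chi (F := F) H hs
  obtain ⟨h, hh, ha⟩ := card_aut3 (F := F)
  have hnc : ¬ Nat.Coprime (Nat.card χ.range) (Nat.card F ^ 2 + Nat.card F + 1) := fun hco =>
    semi_char3 hV hP hR H χ hχ hH htr hco
  obtain ⟨r, hr, hr1, hr2⟩ := Nat.Prime.not_coprime_iff_dvd.1 hnc
  have hfact : Fact r.Prime := ⟨hr⟩
  have hfinA : Finite (F ≃+* F) := Finite.of_injective (fun f => (f : F → F))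
    (fun f g hfg => RingEquiv.ext fun x => congrFun hfg x)
  obtain ⟨x, hx⟩ := exists_prime_orderOf_dvd_card' (G := χ.range) r hr1
  obtain ⟨g, hg⟩ := x.2
  refine ⟨h, r, hh, hr, ?_, hr2, g, g.2, χ g, ?_, hχ g⟩
  · rw [← ha]
    exact hr1.trans (Subgroup.card_subgroup_dvd_card χ.range)
  · rw [hg, Subgroup.orderOf_coe, hx]

end Pool.Agent.RegPack
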