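import Pool.Agent.Lib_MP_cd200f_s.Fix

/-!
# Descent of subspaces along a semilinear bijection
-/

namespace Pool.Agent.RegPack

open Module

variable {F V : Type} [Field F] [AddCommGroup V] [Module F V]

/-- the fixed field of `σ` -/
def fixF (σ : F ≃+* F) : Subfield F where
  carrier := {x | σ x = x}
  mul_mem' {a b} ha hb := by
    show σ (a * b) = a * b
    rw [map_mul, ha, hb]
  one_mem' := map_one σ
  add_mem' {a b} ha hb := by
    show σ (a + b) = a + b
    rw [map_add, ha, hb]
  zero_mem' := map_zero σ
  neg_mem' {a} ha := by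
    show σ (-a) = -a
    rw [map_neg, ha]
  inv_mem' a ha := by
    show σ a⁻¹ = a⁻¹
    rw [map_inv₀, ha]

/-- the fixed vectors of `t` -/
def fixV (σ : F ≃+* F) (t : Equiv.Perm V) (ht : IsSemi σ t) : Submodule (fixF σ) V where
  carrier := {v | t v = v}
  add_mem' {a b} ha hb := by
    show t (a + b) = a + b
    rw [ht.1, ha, hb]
  zero_mem' := ht.zero
  smul_mem' c v hv := by
    show t (c • v) = c • v
    rw [Subfield.smul_def, ht.2, hv]
    congr 1
    exact c.2

theorem mem_fixV {σ : F ≃+* F} {t : Equiv.Perm V} {ht : IsSemi σ t} {v : V} :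
    v ∈ fixV σ t ht ↔ t v = v := Iff.rfl

/-- the fixed vectors in a subspace -/
def fixW (σ : F ≃+* F) (t : Equiv.Perm V) (ht : IsSemi σ t) (W : Submodule F V) :
    Submodule (fixF σ) (fixV σ t ht) where
  carrier := {v | (v : V) ∈ W}
  add_mem' ha hb := W.add_mem ha hb
  zero_mem' := W.zero_mem
  smul_mem' c _ hv := W.smul_mem (c : F) hv

/-- the span over the large field -/
def ext (σ : F ≃+* F) (t : Equiv.Perm V) (ht : IsSemi σ t)
    (U : Submodule (fixF σ) (fixV σ t ht)) : Submodule F V :=
  Submodule.span F ((fun v : fixV σ t ht => (v : V)) '' (U : Set (fixV σ t ht)))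

theorem IsSemi.pow {σ : F ≃+* F} {t : Equiv.Perm V} (ht : IsSemi σ t) (n : ℕ) :
    IsSemi (σ ^ n) (t ^ n) := by
  induction n with
  | zero => exact IsSemi.one
  | succ n ih =>
    rw [pow_succ, pow_succ]
    exact ih.mul ht

/-- Dedekind: no relation between the powers of `σ` -/
theorem dedekind [Finite F] (σ : F ≃+* F) (a : ℕ → F)
    (h : ∀ c : F, ∑ j ∈ Finset.range (orderOf σ), (σ ^ j) c * a j = 0) : a 0 = 0 := by
  have hfin : Finite (F ≃+* F) := Finite.of_injective (fun f => (f : F → F))
    (fun f g hfg => RingEquiv.ext fun x => congrFun hfg x)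
  have hpos : 0 < orderOf σ := orderOf_pos σ
  have li := (linearIndependent_monoidHom F F).comp
    (fun k : Fin (orderOf σ) => (((σ ^ (k : ℕ) : F ≃+* F) : F →+* F) : F →* F)) (by
      intro k l hkl
      have h1 : σ ^ (k : ℕ) = σ ^ (l : ℕ) := by
        ext c
        exact congrArg (fun z : F →* F => z c) hkl
      exact Fin.ext (pow_injOn_Iio_orderOf (Set.mem_Iio.2 k.2) (Set.mem_Iio.2 l.2) h1))
  have h1 := Fintype.linearIndependent_iff.1 li (fun k => a k) (by
    funext c
    have h2 := h c
    rw [Finset.sum_range] at h2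
    rw [Finset.sum_apply]
    refine Eq.trans ?_ h2
    refine Finset.sum_congr rfl fun k _ => ?_
    show a k * (σ ^ (k : ℕ)) c = (σ ^ (k : ℕ)) c * a k
    exact mul_comm _ _) ⟨0, hpos⟩
  exact h1

section

variable {σ : F ≃+* F} {t : Equiv.Perm V}

/-- the trace of a vector is fixed -/
theorem trace_fix (ht : IsSemi σ t) (hm : t ^ orderOf σ = 1) (v : V) :
    t (∑ j ∈ Finset.range (orderOf σ), (t ^ j) v) =
      ∑ j ∈ Finset.range (orderOf σ), (t ^ j) v := by
  have h1 : ∑ j ∈ Finset.range (orderOf σ), (t ^ (j + 1)) v + (t ^ 0) v =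
      ∑ j ∈ Finset.range (orderOf σ), (t ^ j) v + (t ^ orderOf σ) v := by
    rw [← Finset.sum_range_succ, ← Finset.sum_range_succ' (fun j => (t ^ j) v)]
  rw [hm, pow_zero] at h1
  have h2 := add_right_cancel h1
  rw [ht.sum]
  refine Eq.trans ?_ h2
  refine Finset.sum_congr rfl fun j _ => ?_
  rw [pow_succ']
  rfl

theorem pow_mem {W : Submodule F V} (hW : ∀ w ∈ W, t w ∈ W) (j : ℕ) :
    ∀ w ∈ W, (t ^ j) w ∈ W := by
  induction j with
  | zero => exact fun w hw => hw
  | succ j ih =>
    intro w hw
    rw [pow_succ]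
    exact ih _ (hW w hw)

/-- a stable subspace is spanned by its fixed vectors -/
theorem ext_fix [Finite F] (ht : IsSemi σ t) (hm : t ^ orderOf σ = 1) {W : Submodule F V}
    (hW : ∀ w ∈ W, t w ∈ W) : ext σ t ht (fixW σ t ht W) = W := by
  apply le_antisymm
  · refine Submodule.span_le.2 ?_
    rintro _ ⟨v, hv, rfl⟩
    exact hv
  · intro w hw
    by_contra hn
    obtain ⟨f, hf, hle⟩ := Submodule.exists_le_ker_of_notMem hn
    apply hf
    have h0 := dedekind σ (fun j => f ((t ^ j) w)) (by
      intro c
      have h1 : (∑ j ∈ Finset.range (orderOf σ), (t ^ j) (c • w)) ∈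
          ext σ t ht (fixW σ t ht W) := by
        refine Submodule.subset_span
          ⟨⟨∑ j ∈ Finset.range (orderOf σ), (t ^ j) (c • w), trace_fix ht hm _⟩, ?_, rfl⟩
        show (∑ j ∈ Finset.range (orderOf σ), (t ^ j) (c • w)) ∈ W
        exact Submodule.sum_mem _ fun j _ => pow_mem hW j _ (W.smul_mem c hw)
      have h2 : f (∑ j ∈ Finset.range (orderOf σ), (t ^ j) (c • w)) = 0 := hle h1
      rw [map_sum] at h2
      refine Eq.trans (Finset.sum_congr rfl fun j _ => ?_) h2
      rw [(ht.pow j).2, map_smul, smul_eq_mul])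
    exact h0

/-- vectors of the fixed space which are independent over the fixed field are independent -/
theorem indep_of_fix [Finite F] (ht : IsSemi σ t) {ι : Type} [Fintype ι]
    {v : ι → fixV σ t ht} (hv : LinearIndependent (fixF σ) v) :
    LinearIndependent F (fun i => (v i : V)) := by
  rw [Fintype.linearIndependent_iff]
  intro c hc i
  have hm' : σ ^ orderOf σ = 1 := pow_orderOf_eq_one σ
  have key : ∀ d : F, ∑ j ∈ Finset.range (orderOf σ), (σ ^ j) (d * c i) = 0 := by
    intro d
    have hfix : ∀ x : F, (∑ j ∈ Finset.range (orderOf σ), (σ ^ j) x) ∈ fixF σ := by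
      intro x
      show σ (∑ j ∈ Finset.range (orderOf σ), (σ ^ j) x) = _
      have h1 : ∑ j ∈ Finset.range (orderOf σ), (σ ^ (j + 1)) x + (σ ^ 0) x =
          ∑ j ∈ Finset.range (orderOf σ), (σ ^ j) x + (σ ^ orderOf σ) x := by
        rw [← Finset.sum_range_succ, ← Finset.sum_range_succ' (fun j => (σ ^ j) x)]
      rw [hm', pow_zero] at h1
      have h2 := add_right_cancel h1
      rw [map_sum]
      refine Eq.trans ?_ h2
      refine Finset.sum_congr rfl fun j _ => ?_
      rw [pow_succ']
      rfl
    have h1 : ∑ k, (⟨∑ j ∈ Finset.range (orderOf σ), (σ ^ j) (d * c k), hfix _⟩ : fixF σ) • v k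
        = 0 := by
      apply Subtype.ext
      rw [Submodule.coe_sum]
      show ∑ k, (∑ j ∈ Finset.range (orderOf σ), (σ ^ j) (d * c k)) • (v k : V) = 0
      have h2 : ∀ j, (t ^ j) (d • ∑ k, c k • (v k : V)) = ∑ k, (σ ^ j) (d * c k) • (v k : V) := by
        intro j
        rw [Finset.smul_sum, (ht.pow j).sum]
        refine Finset.sum_congr rfl fun k _ => ?_
        rw [smul_smul, (ht.pow j).2]
        congr 1
        have : ∀ j : ℕ, (t ^ j) (v k : V) = v k := by
          intro j
          induction j with
          | zero => rfl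
          | succ j ih =>
            rw [pow_succ]
            show (t ^ j) (t (v k : V)) = v k
            rw [(v k).2, ih]
        exact this j
      calc ∑ k, (∑ j ∈ Finset.range (orderOf σ), (σ ^ j) (d * c k)) • (v k : V)
          = ∑ k, ∑ j ∈ Finset.range (orderOf σ), (σ ^ j) (d * c k) • (v k : V) := by
            refine Finset.sum_congr rfl fun k _ => ?_
            rw [Finset.sum_smul]
        _ = ∑ j ∈ Finset.range (orderOf σ), ∑ k, (σ ^ j) (d * c k) • (v k : V) :=
            Finset.sum_comm
        _ = ∑ j ∈ Finset.range (orderOf σ), (t ^ j) (d • ∑ k, c k • (v k : V)) := by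
            refine Finset.sum_congr rfl fun j _ => (h2 j).symm
        _ = 0 := by
            refine Finset.sum_eq_zero fun j _ => ?_
            rw [hc, smul_zero]
            exact (ht.pow j).zero
    exact congrArg Subtype.val (Fintype.linearIndependent_iff.1 hv _ h1 i)
  by_contra hci
  have h3 := dedekind σ (fun j => (σ ^ j) (c i)) (by
    intro d
    refine Eq.trans (Finset.sum_congr rfl fun j _ => ?_) (key d)
    rw [map_mul])
  exact hci h3

theorem ext_stable (ht : IsSemi σ t) (U : Submodule (fixF σ) (fixV σ t ht)) :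
    ∀ w ∈ ext σ t ht U, t w ∈ ext σ t ht U := by
  intro w hw
  induction hw using Submodule.span_induction with
  | mem x hx =>
    obtain ⟨v, hv, rfl⟩ := hx
    have h1 : t (v : V) = v := v.2
    rw [h1]
    exact Submodule.subset_span ⟨v, hv, rfl⟩
  | zero =>
    rw [ht.zero]
    exact Submodule.zero_mem _
  | add x y _ _ hx hy =>
    rw [ht.1]
    exact Submodule.add_mem _ hx hy
  | smul a x _ hx =>
    rw [ht.2]
    exact Submodule.smul_mem _ _ hx

theorem ext_span (ht : IsSemi σ t) (s : Set (fixV σ t ht)) :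
    ext σ t ht (Submodule.span (fixF σ) s) =
      Submodule.span F ((fun v : fixV σ t ht => (v : V)) '' s) := by
  apply le_antisymm
  · refine Submodule.span_le.2 ?_
    rintro _ ⟨v, hv, rfl⟩
    have h : v ∈ Submodule.span (fixF σ) s := hv
    show (v : V) ∈ Submodule.span F ((fun v : fixV σ t ht => (v : V)) '' s)
    induction h using Submodule.span_induction with
    | mem x hx => exact Submodule.subset_span ⟨x, hx, rfl⟩
    | zero => exact Submodule.zero_mem _
    | add x y _ _ hx hy => exact Submodule.add_mem _ (hx (by assumption)) (hy (by assumption))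
    | smul a x _ hx => exact Submodule.smul_mem _ (a : F) (hx (by assumption))
  · refine Submodule.span_mono (Set.image_mono Submodule.subset_span)

theorem finrank_ext [Finite F] [Finite V] (ht : IsSemi σ t)
    (U : Submodule (fixF σ) (fixV σ t ht)) :
    finrank F (ext σ t ht U) = finrank (fixF σ) U := by
  have hfd : FiniteDimensional (fixF σ) U := Module.Finite.of_finite
  let b := Module.finBasis (fixF σ) U
  let w : Fin (finrank (fixF σ) U) → fixV σ t ht := fun i => (b i : fixV σ t ht)
  have hw : LinearIndependent (fixF σ) w :=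
    b.linearIndependent.map' U.subtype (Submodule.ker_subtype U)
  have hspan : Submodule.span (fixF σ) (Set.range w) = U := by
    have h1 : Set.range w = U.subtype '' Set.range b := by
      rw [← Set.range_comp]
      rfl
    rw [h1, Submodule.span_image, b.span_eq, Submodule.map_top, Submodule.range_subtype]
  have h2 : ext σ t ht U = Submodule.span F (Set.range fun i => (w i : V)) := by
    conv_lhs => rw [← hspan]
    rw [ext_span, ← Set.range_comp]
    rfl
  rw [h2, finrank_span_eq_card (indep_of_fix ht hw), Fintype.card_fin]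

theorem fix_ext [Finite F] [Finite V] (ht : IsSemi σ t) (hm : t ^ orderOf σ = 1)
    (U : Submodule (fixF σ) (fixV σ t ht)) : fixW σ t ht (ext σ t ht U) = U := by
  have hfd : FiniteDimensional (fixF σ) (fixV σ t ht) := Module.Finite.of_finite
  have hle : U ≤ fixW σ t ht (ext σ t ht U) := fun v hv => Submodule.subset_span ⟨v, hv, rfl⟩
  refine (Submodule.eq_of_le_of_finrank_eq hle ?_).symm
  rw [← finrank_ext ht U, ← finrank_ext ht (fixW σ t ht (ext σ t ht U)),
    ext_fix ht hm (ext_stable ht U)]

theorem finrank_fixV [Finite F] [Finite V] (ht : IsSemi σ t) (hm : t ^ orderOf σ = 1) :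
    finrank (fixF σ) (fixV σ t ht) = finrank F V := by
  have h1 : fixW σ t ht (⊤ : Submodule F V) = ⊤ := by
    ext v
    exact ⟨fun _ => trivial, fun _ => trivial⟩
  have h2 := ext_fix ht hm (W := (⊤ : Submodule F V)) fun _ _ => trivial
  rw [h1] at h2
  have h3 := finrank_ext ht (⊤ : Submodule (fixF σ) (fixV σ t ht))
  rw [h2, finrank_top, finrank_top] at h3
  exact h3.symm

end

end Pool.Agent.RegPack
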