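import Pool.Agent.Lib_MP_cd200f_s.Sub2

/-!
# The packing of the subgeometry fixed by a collineation
-/

namespace Pool.Agent.RegPack

open Module

variable {F V : Type} [Field F] [AddCommGroup V] [Module F V]
variable {P : Set (Set (Submodule F V))} {σ : F ≃+* F} {t : Equiv.Perm V}

/-- the induced set of subspaces of the fixed space -/
def res (σ : F ≃+* F) (t : Equiv.Perm V) (ht : IsSemi σ t) (S : Set (Submodule F V)) :
    Set (Submodule (fixF σ) (fixV σ t ht)) := {U | ext σ t ht U ∈ S}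

theorem smap_eq [Finite F] [FiniteDimensional F V] (ht : IsSemi σ t) {W : Submodule F V}
    (hW : ∀ w ∈ W, t w ∈ W) : smap t ⟨σ, ht⟩ W = W := by
  refine Submodule.eq_of_le_of_finrank_eq ?_ (finrank_smap t ⟨σ, ht⟩ W)
  rintro _ ⟨w, hw, rfl⟩
  exact hW w hw

theorem ext_inj [Finite F] [Finite V] (ht : IsSemi σ t) (hm : t ^ orderOf σ = 1)
    {U W : Submodule (fixF σ) (fixV σ t ht)} (h : ext σ t ht U = ext σ t ht W) : U = W := by
  rw [← fix_ext ht hm U, h, fix_ext ht hm W]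

theorem isLine_ext [Finite F] [Finite V] (ht : IsSemi σ t)
    {U : Submodule (fixF σ) (fixV σ t ht)} : IsLine (ext σ t ht U) ↔ IsLine U := by
  unfold IsLine
  rw [finrank_ext ht U]

theorem res_spread [Finite F] [Finite V] [FiniteDimensional F V] (ht : IsSemi σ t)
    (hm : t ^ orderOf σ = 1) {S : Set (Submodule F V)} (hS : IsSpread S) (hf : sim t S = S) :
    IsSpread (res σ t ht S) := by
  refine ⟨fun U hU => (isLine_ext ht).1 (hS.line _ hU), fun v hv => ?_⟩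
  have hv' : (v : V) ≠ 0 := fun h => hv (Subtype.ext h)
  obtain ⟨W, ⟨hW, hvW⟩, huniq⟩ := hS.cover v hv'
  have hst : smap t ⟨σ, ht⟩ W = W := by
    refine huniq _ ⟨?_, ?_⟩
    · have := smap_mem_sim ⟨σ, ht⟩ hW
      rw [hf] at this
      exact this
    · have h1 : t (v : V) = v := v.2
      exact ⟨v, hvW, h1⟩
  have hst' : ∀ w ∈ W, t w ∈ W := by
    intro w hw
    have h1 : t w ∈ smap t ⟨σ, ht⟩ W := ⟨w, hw, rfl⟩
    rw [hst] at h1
    exact h1
  refine ⟨fixW σ t ht W, ⟨?_, hvW⟩, ?_⟩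
  · show ext σ t ht (fixW σ t ht W) ∈ S
    rw [ext_fix ht hm hst']
    exact hW
  · rintro U ⟨hU, hvU⟩
    have h1 : ext σ t ht U = W := huniq _ ⟨hU, Submodule.subset_span ⟨v, hvU, rfl⟩⟩
    rw [← h1, fix_ext ht hm]

theorem ext_disjoint [Finite F] [Finite V] [FiniteDimensional F V] (ht : IsSemi σ t)
    (hm : t ^ orderOf σ = 1) {S : Set (Submodule F V)} (hS : IsSpread S) {a b : Submodule F V}
    (ha : a ∈ S) (hb : b ∈ S) (hab : a ≠ b) : a ⊓ b = ⊥ := by
  rw [Submodule.eq_bot_iff]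
  rintro x ⟨hxa, hxb⟩
  by_contra hx
  obtain ⟨W, -, huniq⟩ := hS.cover x hx
  exact hab ((huniq a ⟨ha, hxa⟩).trans (huniq b ⟨hb, hxb⟩).symm)

theorem coe_indep [Finite F] (ht : IsSemi σ t) {x y : fixV σ t ht}
    (h : LinearIndependent (fixF σ) ![x, y]) : LinearIndependent F ![(x : V), (y : V)] := by
  have h1 := indep_of_fix ht h
  rw [Fintype.linearIndependent_iff] at h1
  rw [LinearIndependent.pair_iff]
  intro α β h0
  have h2 := h1 ![α, β] (by
    rw [Fin.sum_univ_two]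
    exact h0)
  exact ⟨h2 0, h2 1⟩

theorem res_regular [Finite F] [Finite V] [FiniteDimensional F V] (hV : finrank F V = 4)
    (ht : IsSemi σ t) (hm : t ^ orderOf σ = 1) {S : Set (Submodule F V)} (hS : IsSpread S)
    (hR : IsRegular S) (hf : sim t S = S) : IsRegular (res σ t ht S) := by
  intro a ha b hb c hc hab hac hbc U hU
  have hsp := res_spread ht hm hS hf
  have hd : ∀ {x y : Submodule (fixF σ) (fixV σ t ht)}, x ∈ res σ t ht S → y ∈ res σ t ht S →
      x ≠ y → x ⊓ y = ⊥ := by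
    intro x y hx hy hxy
    rw [Submodule.eq_bot_iff]
    rintro z ⟨hzx, hzy⟩
    by_contra hz
    obtain ⟨W, -, huniq⟩ := hsp.cover z hz
    exact hxy ((huniq x ⟨hx, hzx⟩).trans (huniq y ⟨hy, hzy⟩).symm)
  have hX : finrank (fixF σ) (fixV σ t ht) = 4 := by rw [finrank_fixV ht hm, hV]
  obtain ⟨x₁, x₂, y₁, y₂, hx₁, hx₂, hy₁, hy₂, hx, hy, hz₁, hz₂, hcs⟩ :=
    exists_coord hX (hsp.line a ha) (hsp.line b hb) (hsp.line c hc) (hd ha hb hab)
      (hd ha hc hac) (hd hb hc hbc)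
  obtain ⟨l, m, hlm, h1, h2⟩ := regulus_coord (hd ha hb hab) hx₁ hx₂ hy₁ hy₂ hz₁ hz₂ hx hy hU
  have hab' : ext σ t ht a ≠ ext σ t ht b := fun h => hab (ext_inj ht hm h)
  have hac' : ext σ t ht a ≠ ext σ t ht c := fun h => hac (ext_inj ht hm h)
  have hbc' : ext σ t ht b ≠ ext σ t ht c := fun h => hbc (ext_inj ht hm h)
  have mem : ∀ {W : Submodule (fixF σ) (fixV σ t ht)} {x : fixV σ t ht}, x ∈ W →
      (x : V) ∈ ext σ t ht W := fun hx => Submodule.subset_span ⟨_, hx, rfl⟩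
  refine hR _ ha _ hb _ hc hab' hac' hbc' ?_
  refine mem_regulus_of_coord (ext_disjoint ht hm hS ha hb hab') (mem hx₁) (mem hx₂) (mem hy₁)
    (mem hy₂) ?_ (coe_indep ht hx) (coe_indep ht hy) ((isLine_ext ht).2 hU.1)
    (l := (l : F)) (m := (m : F)) ?_ (mem h1) (mem h2)
  · conv_lhs => rw [hcs]
    rw [ext_span, Set.image_pair]
    rfl
  · rcases hlm with h | h
    · exact Or.inl fun h0 => h (Subtype.ext h0)
    · exact Or.inr fun h0 => h (Subtype.ext h0)

/-- **Main theorem** -/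
theorem sub_packing [Finite F] (hV : finrank F V = 4) (hP : IsPacking P)
    (hR : ∀ S ∈ P, IsRegular S) (ht : IsSemi σ t) (hm : t ^ orderOf σ = 1)
    (htP : ∀ S ∈ P, sim t S ∈ P) :
    finrank (fixF σ) (fixV σ t ht) = 4 ∧
      IsPacking {S₀ | ∃ S ∈ P, sim t S = S ∧ S₀ = res σ t ht S} ∧
      ∀ S ∈ {S₀ | ∃ S ∈ P, sim t S = S ∧ S₀ = res σ t ht S}, IsRegular S := by
  have hfin := finite_space (F := F) (V := V) hV
  have hfd : FiniteDimensional F V := FiniteDimensional.of_finrank_pos (by rw [hV]; norm_num)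
  refine ⟨by rw [finrank_fixV ht hm, hV], ⟨?_, ?_⟩, ?_⟩
  · rintro _ ⟨S, hS, hf, rfl⟩
    exact res_spread ht hm (hP.spread S hS) hf
  · intro U hU
    obtain ⟨S, ⟨hS, hUS⟩, huniq⟩ := hP.cover _ ((isLine_ext ht).2 hU)
    have hf : sim t S = S := by
      refine huniq _ ⟨htP S hS, ?_⟩
      have h1 := smap_mem_sim ⟨σ, ht⟩ hUS
      rw [smap_eq ht (ext_stable ht U)] at h1
      exact h1
    refine ⟨res σ t ht S, ⟨⟨S, hS, hf, rfl⟩, hUS⟩, ?_⟩
    rintro _ ⟨⟨T, hT, -, rfl⟩, hUT⟩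
    rw [huniq T ⟨hT, hUT⟩]
  · rintro _ ⟨S, hS, hf, rfl⟩
    exact res_regular hV ht hm (hP.spread S hS) (hR S hS) hf

end Pool.Agent.RegPack
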