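import Pool.Agent.Lib_MP_cd200f_s.Sub3

/-!
# The order of the fixed field
-/

namespace Pool.Agent.RegPack

open Module

theorem card_fixF {F : Type} [Field F] [Finite F] (σ : F ≃+* F) :
    Nat.card (fixF σ) ^ orderOf σ = Nat.card F := by
  have hfin : Finite (F ≃+* F) := Finite.of_injective (fun f => (f : F → F))
    (fun f g hfg => RingEquiv.ext fun x => congrFun hfg x)
  let G : Subgroup (RingAut F) := Subgroup.zpowers σ
  have hG : Finite G := inferInstance
  have := Fintype.ofFinite G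
  have hcard : Nat.card G = orderOf σ := Nat.card_zpowers σ
  have h1 : finrank (FixedPoints.subfield G F) F = Fintype.card G :=
    FixedPoints.finrank_eq_card G F
  have h2 : (FixedPoints.subfield G F : Set F) = (fixF σ : Set F) := by
    ext x
    constructor
    · intro hx
      exact hx ⟨σ, Subgroup.mem_zpowers σ⟩
    · rintro hx ⟨g, hg⟩
      obtain ⟨n, rfl⟩ := (mem_powers_iff_mem_zpowers.2 hg)
      show (σ ^ n) x = x
      have hx' : σ x = x := hx
      induction n with
      | zero => rfl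
      | succ n ih =>
        rw [pow_succ]
        show (σ ^ n) (σ x) = x
        rw [hx']
        exact ih ⟨n, rfl⟩
  have h3 : Nat.card (FixedPoints.subfield G F) = Nat.card (fixF σ) :=
    congrArg (fun s : Set F => Nat.card s) h2
  rw [← h3, ← hcard, Nat.card_eq_fintype_card (α := G), ← h1]
  exact (Module.natCard_eq_pow_finrank (K := FixedPoints.subfield G F) (V := F)).symm

theorem finrank_fixF {F : Type} [Field F] [Finite F] (σ : F ≃+* F) :
    finrank (fixF σ) F = orderOf σ := by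
  have h1 := card_fixF σ
  rw [Module.natCard_eq_pow_finrank (K := fixF σ) (V := F)] at h1
  exact (Nat.pow_right_injective (Finite.one_lt_card (α := fixF σ)) h1).symm

/-- the norm of a finite field is onto -/
theorem exists_prod_eq {F : Type} [Field F] [Finite F] (σ : F ≃+* F) {c : F} (hc : c ≠ 0)
    (hσ : σ c = c) : ∃ d : F, d ≠ 0 ∧ ∏ j ∈ Finset.range (orderOf σ), (σ ^ j) d = c := by
  have hfin : Finite (F ≃+* F) := Finite.of_injective (fun f => (f : F → F))
    (fun f g hfg => RingEquiv.ext fun x => congrFun hfg x)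
  have hpos : 0 < orderOf σ := orderOf_pos σ
  obtain ⟨x, hx⟩ := FiniteField.norm_surjective (fixF σ) F ⟨c, hσ⟩
  have hfix : ∀ (j : ℕ) (r : fixF σ), (σ ^ j) (r : F) = r := by
    intro j r
    induction j with
    | zero => rfl
    | succ j ih =>
      rw [pow_succ]
      show (σ ^ j) (σ (r : F)) = r
      have h : σ (r : F) = r := r.2
      rw [h, ih]
  let e : Fin (orderOf σ) → (F ≃ₐ[fixF σ] F) := fun j =>
    AlgEquiv.ofRingEquiv (f := (σ ^ (j : ℕ) : F ≃+* F)) fun r => hfix j r
  have hinj : Function.Injective e := by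
    intro k l hkl
    have h1 : σ ^ (k : ℕ) = σ ^ (l : ℕ) := by
      ext z
      exact congrArg (fun w : F ≃ₐ[fixF σ] F => w z) hkl
    exact Fin.ext (pow_injOn_Iio_orderOf (Set.mem_Iio.2 k.2) (Set.mem_Iio.2 l.2) h1)
  have hcard : Fintype.card (Fin (orderOf σ)) = Fintype.card (F ≃ₐ[fixF σ] F) := by
    rw [Fintype.card_fin, ← Nat.card_eq_fintype_card, IsGalois.card_aut_eq_finrank, finrank_fixF]
  have hbij : Function.Bijective e :=
    (Fintype.bijective_iff_injective_and_card e).2 ⟨hinj, hcard⟩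
  have h1 := Algebra.norm_eq_prod_automorphisms (fixF σ) x
  rw [hx] at h1
  have h2 : ∏ j ∈ Finset.range (orderOf σ), (σ ^ j) x = c := by
    rw [Finset.prod_range]
    refine Eq.trans (Fintype.prod_bijective e hbij (fun j : Fin (orderOf σ) => (σ ^ (j : ℕ)) x)
      (fun τ => τ x) fun j => rfl) h1.symm
  refine ⟨x, ?_, h2⟩
  rintro rfl
  apply hc
  rw [← h2]
  exact Finset.prod_eq_zero (Finset.mem_range.2 hpos) (map_zero (σ ^ 0))

variable {F V : Type} [Field F] [AddCommGroup V] [Module F V]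

theorem scal_semi {σ : F ≃+* F} {t : Equiv.Perm V} (ht : IsSemi σ t) {d : F} (hd : d ≠ 0) :
    IsSemi σ (scal d hd * t) := by
  refine ⟨fun v w => ?_, fun c v => ?_⟩
  · show d • t (v + w) = d • t v + d • t w
    rw [ht.1, smul_add]
  · show d • t (c • v) = σ c • d • t v
    rw [ht.2]
    exact smul_comm _ _ _

theorem scal_pow {σ : F ≃+* F} {t : Equiv.Perm V} (ht : IsSemi σ t) {d : F} (hd : d ≠ 0) (n : ℕ)
    (v : V) : ((scal d hd * t : Equiv.Perm V) ^ n) v = (∏ j ∈ Finset.range n, (σ ^ j) d) • (t ^ n) v := by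
  induction n with
  | zero =>
    rw [Finset.range_zero, Finset.prod_empty, one_smul]
    rfl
  | succ n ih =>
    rw [pow_succ', pow_succ']
    show d • t (((scal d hd * t : Equiv.Perm V) ^ n) v) = _
    rw [ih, ht.2, smul_smul, Finset.prod_range_succ', map_prod]
    show (d * ∏ j ∈ Finset.range n, σ ((σ ^ j) d)) • t ((t ^ n) v) =
      ((∏ j ∈ Finset.range n, (σ ^ (j + 1)) d) * (σ ^ 0) d) • t ((t ^ n) v)
    congr 1
    rw [mul_comm]
    congr 1
    refine Finset.prod_congr rfl fun j _ => ?_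
    rw [pow_succ']
    rfl

theorem sim_scal {σ : F ≃+* F} {t : Equiv.Perm V} (ht : IsSemi σ t) {d : F} (hd : d ≠ 0)
    (S : Set (Submodule F V)) : sim (scal d hd * t : Equiv.Perm V) S = sim t S := by
  have h1 : ∀ T : Submodule F V, (scal d hd * t : Equiv.Perm V) '' (T : Set V) = t '' (T : Set V) := by
    intro T
    ext x
    constructor
    · rintro ⟨y, hy, rfl⟩
      exact (smap t ⟨σ, ht⟩ T).smul_mem d ⟨y, hy, rfl⟩
    · intro hx
      have h2 : d⁻¹ • x ∈ smap t ⟨σ, ht⟩ T := (smap t ⟨σ, ht⟩ T).smul_mem d⁻¹ hx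
      obtain ⟨y, hy, hyx⟩ := h2
      refine ⟨y, hy, ?_⟩
      show d • t y = x
      rw [hyx, smul_smul, mul_inv_cancel₀ hd, one_smul]
  ext U
  constructor
  · rintro ⟨T, hT, hU⟩
    exact ⟨T, hT, hU.trans (h1 T)⟩
  · rintro ⟨T, hT, hU⟩
    exact ⟨T, hT, hU.trans (h1 T).symm⟩

/-- normalisation of a collineation of the same order as its field automorphism -/
theorem exists_normal [Finite F] [Nontrivial V] {σ : F ≃+* F} {t : Equiv.Perm V}
    (ht : IsSemi σ t) {c : F} (hc : ∀ v, (t ^ orderOf σ) v = c • v) :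
    ∃ u : Equiv.Perm V, IsSemi σ u ∧ u ^ orderOf σ = 1 ∧
      ∀ S : Set (Submodule F V), sim u S = sim t S := by
  obtain ⟨v, hv⟩ := exists_ne (0 : V)
  have hc0 : c ≠ 0 := by
    rintro rfl
    have h1 := hc v
    rw [zero_smul] at h1
    exact hv ((t ^ orderOf σ).injective (h1.trans (ht.pow (orderOf σ)).zero.symm))
  have hσ : σ c = c := by
    have htv : t v ≠ 0 := fun h => hv (t.injective (h.trans ht.zero.symm))
    have h1 : (t ^ orderOf σ) (t v) = t ((t ^ orderOf σ) v) := by
      have h2 : t ^ orderOf σ * t = t * t ^ orderOf σ := (Commute.refl t).pow_left _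
      exact congrArg (fun g : Equiv.Perm V => g v) h2
    rw [hc, hc, ht.2] at h1
    have h3 : (σ c - c) • t v = 0 := by rw [sub_smul, ← h1, sub_self]
    exact sub_eq_zero.1 ((smul_eq_zero.1 h3).resolve_right htv)
  obtain ⟨d, hd, hN⟩ := exists_prod_eq σ (inv_ne_zero hc0) (by rw [map_inv₀, hσ])
  refine ⟨scal d hd * t, scal_semi ht hd, ?_, fun S => sim_scal ht hd S⟩
  apply Equiv.ext
  intro w
  rw [scal_pow ht hd, hN, hc, smul_smul, inv_mul_cancel₀ hc0, one_smul]
  rfl

/-- the packing which the spreads of `P` fixed by `t` induce on the `K`-subspace `W` -/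
def induced {K : Subfield F} (t : Equiv.Perm V) (P : Set (Set (Submodule F V)))
    (W : Submodule K V) : Set (Set (Submodule K W)) :=
  {S₀ | ∃ S ∈ P, sim t S = S ∧
    S₀ = {U : Submodule K W | Submodule.span F (Subtype.val '' (U : Set W)) ∈ S}}

/-- **Main theorem** -/
theorem sub_main [Finite F] (hV : finrank F V = 4) {P : Set (Set (Submodule F V))}
    (hP : IsPacking P) (hR : ∀ S ∈ P, IsRegular S) {σ : F ≃+* F} {t : Equiv.Perm V}
    (ht : IsSemi σ t) {c : F} (hc : ∀ v, (t ^ orderOf σ) v = c • v)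
    (htP : ∀ S ∈ P, sim t S ∈ P) :
    ∃ (K : Subfield F) (W : Submodule K V), (∀ x, x ∈ K ↔ σ x = x) ∧
      Nat.card K ^ orderOf σ = Nat.card F ∧ finrank K W = 4 ∧ IsPacking (induced t P W) ∧
      ∀ S ∈ induced t P W, IsRegular S := by
  have hnt : Nontrivial V := Module.nontrivial_of_finrank_pos (R := F) (by rw [hV]; norm_num)
  obtain ⟨u, hu, hm, hus⟩ := exists_normal ht hc
  obtain ⟨h1, h2, h3⟩ := sub_packing hV hP hR hu hm (fun S hS => by rw [hus]; exact htP S hS)
  have h4 : {S₀ | ∃ S ∈ P, sim u S = S ∧ S₀ = res σ u hu S} = induced t P (fixV σ u hu) := by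
    ext S₀
    constructor
    · rintro ⟨S, hS, hf, rfl⟩
      rw [hus] at hf
      exact ⟨S, hS, hf, rfl⟩
    · rintro ⟨S, hS, hf, rfl⟩
      rw [← hus] at hf
      exact ⟨S, hS, hf, rfl⟩
  rw [h4] at h2 h3
  exact ⟨fixF σ, fixV σ u hu, fun x => Iff.rfl, card_fixF σ, h1, h2, h3⟩

end Pool.Agent.RegPack
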