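import Pool.Agent.Lib_MP_cd200f_s.Fix

/-!
# Three-groups of collineations fix a spread
-/

namespace Pool.Agent.RegPack

open Module

variable {F V : Type} [Field F] [AddCommGroup V] [Module F V]
variable {P : Set (Set (Submodule F V))}

theorem im_eq_sim (G : V ≃ₗ[F] V) (g : Equiv.Perm V) (h : ∀ v, G v = g v)
    (S : Set (Submodule F V)) : im G S = sim g S := by
  have h1 : ∀ T : Submodule F V,
      ((T.map (G : V →ₗ[F] V) : Submodule F V) : Set V) = g '' (T : Set V) := by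
    intro T
    ext x
    constructor
    · rintro ⟨y, hy, rfl⟩
      exact ⟨y, hy, (h y).symm⟩
    · rintro ⟨y, hy, rfl⟩
      exact ⟨y, hy, h y⟩
  ext U
  constructor
  · rintro ⟨T, hT, rfl⟩
    exact ⟨T, hT, h1 T⟩
  · rintro ⟨T, hT, hU⟩
    exact ⟨T, hT, SetLike.coe_injective ((h1 T).trans hU.symm)⟩

/-- a linear permutation as a linear equivalence -/
theorem exists_lin {g : Equiv.Perm V} (hg : IsSemi (RingEquiv.refl F) g) :
    ∃ G : V ≃ₗ[F] V, ∀ v, G v = g v :=
  ⟨g.toLinearEquiv ⟨hg.1, hg.2⟩, fun _ => rfl⟩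

theorem lin_pow {g : Equiv.Perm V} {G : V ≃ₗ[F] V} (h : ∀ v, G v = g v) (n : ℕ) (v : V) :
    (G ^ n) v = (g ^ n) v := by
  induction n generalizing v with
  | zero => rfl
  | succ n ih =>
    rw [pow_succ, pow_succ]
    show (G ^ n) (G v) = (g ^ n) (g v)
    rw [h, ih]

/-- the linear elements of a three-group are scalar -/
theorem lin_scalar [Finite F] (hq : Nat.card F % 3 = 1) (hV : finrank F V = 4)
    (hP : IsPacking P) (hR : ∀ S ∈ P, IsRegular S) (Q : Subgroup (Equiv.Perm V))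
    (hQ : IsPGroup 3 Q) (hQP : ∀ g ∈ Q, ∀ S ∈ P, sim g S ∈ P) {g : Equiv.Perm V} (hg : g ∈ Q)
    (hl : IsSemi (RingEquiv.refl F) g) : ∃ μ : F, ∀ v, g v = μ • v := by
  obtain ⟨G, hG⟩ := exists_lin hl
  have h1 : 1 < Nat.card F := Finite.one_lt_card
  obtain ⟨n, hn⟩ := hQ ⟨g, hg⟩
  have hn' : g ^ 3 ^ n = 1 := congrArg Subtype.val hn
  obtain ⟨μ, hμ⟩ := scalar_of_pow (by omega) hV hP hR Nat.prime_three (by norm_num) (by
      refine Dvd.dvd.mul_left ?_ _
      obtain ⟨k, hk⟩ : ∃ k, Nat.card F = 3 * k + 1 := ⟨Nat.card F / 3, by omega⟩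
      rw [hk]
      exact ⟨k, by omega⟩) n G (fun S hS => by
        rw [im_eq_sim G g hG]
        exact hQP g hg S hS) (by
        apply LinearEquiv.ext
        intro v
        rw [lin_pow hG, hn']
        rfl)
  exact ⟨μ, fun v => by rw [← hG, hμ]⟩

theorem normG_one [Finite F] (hq : Nat.card F % 3 = 1) (hV : finrank F V = 4)
    (hP : IsPacking P) (hR : ∀ S ∈ P, IsRegular S) (Q : Subgroup (Equiv.Perm V))
    (hQ : IsPGroup 3 Q) (hs : ∀ g ∈ Q, ∃ σ : F ≃+* F, IsSemi σ g)
    (hQP : ∀ g ∈ Q, ∀ S ∈ P, sim g S ∈ P) {e : V} (he : e ≠ 0) {k : Equiv.Perm V}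
    (hk : k ∈ normG Q hs e) (hl : IsSemi (RingEquiv.refl F) k) : k = 1 := by
  obtain ⟨hke, g, hg, α, hα, h1⟩ := hk
  have h2 : ∀ v, g v = α⁻¹ • k v := fun v => by
    rw [h1, smul_smul, inv_mul_cancel₀ hα, one_smul]
  obtain ⟨μ, hμ⟩ := lin_scalar hq hV hP hR Q hQ hQP hg (by
    refine ⟨fun v w => ?_, fun c v => ?_⟩
    · rw [h2, h2, h2, hl.1, smul_add]
    · rw [h2, h2, hl.2]
      exact smul_comm _ _ _)
  have h3 : (α * μ) • e = (1 : F) • e := by
    rw [one_smul, ← smul_smul, ← hμ, ← h1, hke]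
  have h4 : α * μ = 1 := by
    have h5 : (α * μ - 1) • e = 0 := by rw [sub_smul, h3, sub_self]
    exact sub_eq_zero.1 ((smul_eq_zero.1 h5).resolve_right he)
  apply Equiv.ext
  intro v
  rw [h1, hμ, smul_smul, h4, one_smul]
  rfl

/-- a three-group of collineations which preserves a regular packing fixes a spread, if `q` is `1`
modulo `3` -/
theorem three_fix [Finite F] (hq : Nat.card F % 3 = 1) (hV : finrank F V = 4)
    (hP : IsPacking P) (hR : ∀ S ∈ P, IsRegular S) (Q : Subgroup (Equiv.Perm V))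
    (hQ : IsPGroup 3 Q) (hs : ∀ g ∈ Q, ∃ σ : F ≃+* F, IsSemi σ g)
    (hQP : ∀ g ∈ Q, ∀ S ∈ P, sim g S ∈ P) : ∃ S ∈ P, ∀ g ∈ Q, sim g S = S := by
  classical
  have hfin := finite_space (F := F) (V := V) hV
  have hfd : FiniteDimensional F V := FiniteDimensional.of_finrank_pos (by rw [hV]; norm_num)
  have hnt : Nontrivial V := Module.nontrivial_of_finrank_pos (R := F) (by rw [hV]; norm_num)
  obtain ⟨e, he0, he⟩ := exists_fixed_point hV hq Q hQ hs
  have hFin : Finite (normG Q hs e) := inferInstance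
  have := Fintype.ofFinite (normG Q hs e)
  choose σ hσ using fun k : normG Q hs e => normG_semi k.2
  have hinj : ∀ k l : normG Q hs e, σ k = σ l → k = l := by
    intro k l hkl
    have h1 : IsSemi ((σ l).trans (σ k).symm) ((k⁻¹ * l : normG Q hs e) : Equiv.Perm V) :=
      (hσ k).inv.mul (hσ l)
    have h2 : (σ l).trans (σ k).symm = RingEquiv.refl F := by
      rw [hkl]
      ext c
      exact (σ l).symm_apply_apply c
    rw [h2] at h1
    have h3 := normG_one hq hV hP hR Q hQ hs hQP he0 (k⁻¹ * l).2 h1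
    have h4 : k⁻¹ * l = 1 := Subtype.ext h3
    exact (inv_mul_eq_one.1 h4)
  obtain ⟨v, hv⟩ : ∃ v, v ∉ Submodule.span F {e} := by
    by_contra h
    push Not at h
    have h1 : Submodule.span F {e} = ⊤ := by
      rw [eq_top_iff]
      intro x _
      exact h x
    have h2 := finrank_span_singleton (K := F) he0
    rw [h1, finrank_top, hV] at h2
    norm_num at h2
  obtain ⟨f, hfv, hfe⟩ := Submodule.exists_le_ker_of_notMem hv
  obtain ⟨c, hc⟩ : ∃ c : F, f (∑ k : normG Q hs e, (k : Equiv.Perm V) (c • v)) ≠ 0 := by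
    by_contra h
    push Not at h
    have li := (linearIndependent_monoidHom F F).comp
      (fun k : normG Q hs e => ((σ k : F →+* F) : F →* F)) (fun k l hkl => hinj k l (by
        ext c
        exact congrArg (fun z : F →* F => z c) hkl))
    have h1 := Fintype.linearIndependent_iff.1 li (fun k => f ((k : Equiv.Perm V) v)) (by
      funext c
      have h2 := h c
      rw [map_sum] at h2
      rw [Finset.sum_apply]
      refine Eq.trans ?_ h2
      refine Finset.sum_congr rfl fun k _ => ?_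
      rw [(hσ k).2, map_smul]
      show f ((k : Equiv.Perm V) v) * σ k c = σ k c * f ((k : Equiv.Perm V) v)
      exact mul_comm _ _) 1
    exact hfv h1
  obtain ⟨w, hw⟩ : ∃ w, w = ∑ k : normG Q hs e, (k : Equiv.Perm V) (c • v) := ⟨_, rfl⟩
  rw [← hw] at hc
  have hfix : ∀ l ∈ normG Q hs e, l w = w := by
    intro l hl
    rw [hw, (hσ ⟨l, hl⟩).sum]
    exact Fintype.sum_equiv (Equiv.mulLeft (⟨l, hl⟩ : normG Q hs e)) _ _ (fun k => rfl)
  have hwe : w ∉ Submodule.span F {e} := fun h => hc (hfe h)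
  have hL : IsLine (Submodule.span F {e, w}) := by
    refine isLine_span (indep_of he0 fun c hc => hwe ?_)
    rw [hc]
    exact Submodule.smul_mem _ c (Submodule.mem_span_singleton_self e)
  obtain ⟨S, ⟨hS, hLS⟩, huniq⟩ := hP.cover _ hL
  refine ⟨S, hS, fun g hg => ?_⟩
  have hgL : smap g (hs g hg) (Submodule.span F {e, w}) = Submodule.span F {e, w} := by
    refine Submodule.eq_of_le_of_finrank_eq ?_ (finrank_smap g (hs g hg) _)
    obtain ⟨τ, hτ⟩ := hs g hg
    obtain ⟨α, hα⟩ := he g hg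
    have hα0 : α ≠ 0 := by
      rintro rfl
      rw [zero_smul] at hα
      exact he0 (g.injective (hα.trans hτ.zero.symm))
    have hk : scal α⁻¹ (inv_ne_zero hα0) * g ∈ normG Q hs e := by
      refine ⟨?_, g, hg, α⁻¹, inv_ne_zero hα0, fun _ => rfl⟩
      show α⁻¹ • g e = e
      rw [hα, smul_smul, inv_mul_cancel₀ hα0, one_smul]
    have hgw : g w = α • w := by
      have h1 := hfix _ hk
      have h2 : α⁻¹ • g w = w := h1
      rw [← h2, smul_smul, mul_inv_cancel₀ hα0, one_smul, h2]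
    rintro _ ⟨x, hx, rfl⟩
    obtain ⟨a, b, rfl⟩ := Submodule.mem_span_pair.1 hx
    rw [hτ.1, hτ.2, hτ.2, hα, hgw]
    refine Submodule.mem_span_pair.2 ⟨τ a * α, τ b * α, ?_⟩
    rw [mul_smul, mul_smul]
  refine huniq _ ⟨hQP g hg S hS, ?_⟩
  have h1 := smap_mem_sim (hs g hg) hLS
  rw [hgL] at h1
  exact h1

end Pool.Agent.RegPack
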