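import Pool.Agent.Lib_MP_cd200f_c3.TransMain

/-!
# Transitive linear groups on the spreads of a regular packing of `PG(3, q)`: `q ≡ 2` modulo `3`
-/

namespace Pool.Agent.RegPack.TransitiveMod3

open Module

/-- If a group `H` of linear maps preserves a packing `P` of `PG(3, q)` by regular spreads and is
transitive on the `q ^ 2 + q + 1` spreads of `P`, then `q` is congruent to `2` modulo `3`. -/
theorem result {F V : Type} [Field F] [Finite F] [AddCommGroup V] [Module F V]
    (hV : finrank F V = 4) {P : Set (Set (Submodule F V))} (hP : IsPacking P)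
    (hR : ∀ S ∈ P, IsRegular S) (H : Subgroup (V ≃ₗ[F] V)) (hH : ∀ g ∈ H, ∀ S ∈ P, im g S ∈ P)
    (htr : ∀ S ∈ P, ∀ T ∈ P, ∃ g ∈ H, im g S = T) : Nat.card F % 3 = 2 :=
  C3.trans_mod hV hP hR H hH htr

end Pool.Agent.RegPack.TransitiveMod3
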